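import Pool.Agent.Helper17.Rg.Goals

/-!
# SUBQ: the Subspace theorem for one integer and units `2 ^ a * 3 ^ b`
-/

set_option autoImplicit false

open NumberField Pool.Agent.Helper92.Ru

namespace Pool.Agent.Helper17.Rg

theorem w_int_le (w : FinitePlace ℚ) (n : ℤ) : w (n : ℚ) ≤ 1 := by
  have h := FinitePlace.norm_le_one (K := ℚ) w.maximalIdeal (n : 𝓞 ℚ)
  have h2 : ((n : 𝓞 ℚ) : ℚ) = (n : ℚ) := by simp
  rw [← h2, ← FinitePlace.norm_embedding_eq]
  exact h

theorem exists_T : ∃ T : Finset (FinitePlace ℚ), ∀ w : FinitePlace ℚ, w ∉ T →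
    w (2 : ℚ) = 1 ∧ w (3 : ℚ) = 1 := by
  have h6 : (6 : ℚ) ≠ 0 := by norm_num
  have hfin : (Function.mulSupport fun w : FinitePlace ℚ => w (6 : ℚ)).Finite :=
    FinitePlace.hasFiniteMulSupport h6
  refine ⟨hfin.toFinset, fun w hw => ?_⟩
  have h1 : w (6 : ℚ) = 1 := by
    by_contra h
    exact hw (hfin.mem_toFinset.2 h)
  have h2 : w (2:ℚ) * w (3:ℚ) = 1 := by
    rw [← map_mul, show (2:ℚ) * 3 = 6 by norm_num, h1]
  have i2 : w (2:ℚ) ≤ 1 := by simpa using w_int_le w 2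
  have i3 : w (3:ℚ) ≤ 1 := by simpa using w_int_le w 3
  have p2 : 0 < w (2:ℚ) := FinitePlace.pos_iff.2 (by norm_num)
  have p3 : 0 < w (3:ℚ) := FinitePlace.pos_iff.2 (by norm_num)
  constructor <;> nlinarith

section
variable {T : Finset (FinitePlace ℚ)}

theorem nS_zpow (v : SP ℚ T) (x : ℚ) (n : ℤ) : nS v (x ^ n) = nS v x ^ n := by
  cases n with
  | ofNat n => simp [nS_pow]
  | negSucc n => rw [zpow_negSucc, zpow_negSucc, nS_inv, nS_pow]

theorem unit_ne (a b : ℤ) : (2 : ℚ) ^ a * 3 ^ b ≠ 0 :=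
  mul_ne_zero (zpow_ne_zero _ (by norm_num)) (zpow_ne_zero _ (by norm_num))

theorem unit_SInt (hT : ∀ w : FinitePlace ℚ, w ∉ T → w (2 : ℚ) = 1 ∧ w (3 : ℚ) = 1) (a b : ℤ) :
    SInt T ((2 : ℚ) ^ a * 3 ^ b) := fun w hw => by
  rw [map_mul, map_zpow₀, map_zpow₀, (hT w hw).1, (hT w hw).2]
  simp

theorem unit_inv (a b : ℤ) : ((2 : ℚ) ^ a * 3 ^ b)⁻¹ = 2 ^ (-a) * 3 ^ (-b) := by
  rw [mul_inv, zpow_neg, zpow_neg]

theorem unit_prod (hT : ∀ w : FinitePlace ℚ, w ∉ T → w (2 : ℚ) = 1 ∧ w (3 : ℚ) = 1) (a b : ℤ) :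
    ∏ v : SP ℚ T, nS v ((2 : ℚ) ^ a * 3 ^ b) = 1 := by
  have h1 := one_le_prod_nS (unit_SInt hT a b) (unit_ne a b)
  have h2 := one_le_prod_nS (unit_SInt hT (-a) (-b)) (unit_ne (-a) (-b))
  rw [← unit_inv] at h2
  simp only [nS_inv] at h2
  rw [Finset.prod_inv_distrib] at h2
  have h3 : (∏ v : SP ℚ T, nS v ((2 : ℚ) ^ a * 3 ^ b)) ≤ 1 := by
    by_contra h
    push Not at h
    have := inv_lt_one_of_one_lt₀ h
    linarith
  linarith

theorem unit_logsum (hT : ∀ w : FinitePlace ℚ, w ∉ T → w (2 : ℚ) = 1 ∧ w (3 : ℚ) = 1) (a b : ℤ) :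
    ∑ v : SP ℚ T, Real.log (nS v ((2 : ℚ) ^ a * 3 ^ b)) = 0 := by
  rw [← Real.log_prod, unit_prod hT, Real.log_one]
  intro v _
  exact (nS_pos v (unit_ne a b)).ne'

theorem unit_log (v : SP ℚ T) (a b : ℤ) : Real.log (nS v ((2 : ℚ) ^ a * 3 ^ b)) =
    a * Real.log (nS v (2 : ℚ)) + b * Real.log (nS v (3 : ℚ)) := by
  have h2 : nS v (2 : ℚ) ≠ 0 := (nS_pos v (by norm_num)).ne'
  have h3 : nS v (3 : ℚ) ≠ 0 := (nS_pos v (by norm_num)).ne'
  rw [nS_mul, nS_zpow, nS_zpow, Real.log_mul (zpow_ne_zero _ h2) (zpow_ne_zero _ h3),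
    Real.log_zpow, Real.log_zpow]

end

/-- coefficients of a linear form vanishing on a proper subspace -/
theorem exists_form {r : ℕ} (W : Submodule ℚ (Fin (r + 1) → ℚ)) (hW : W ≠ ⊤) :
    ∃ u : ℚ × (Fin r → ℚ), u ≠ 0 ∧ ∀ x ∈ W, u.1 * x 0 + ∑ i, u.2 i * x i.succ = 0 := by
  obtain ⟨f, hf, hfW⟩ := Submodule.exists_le_ker_of_lt_top W (lt_top_iff_ne_top.2 hW)
  have key : ∀ x, f x = f (Pi.single 0 1) * x 0 + ∑ i : Fin r, f (Pi.single i.succ 1) * x i.succ := by
    intro x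
    have h : x = ∑ i, x i • (Pi.single i (1:ℚ) : Fin (r + 1) → ℚ) := by
      funext j
      simp [Finset.sum_apply, Pi.single_apply]
    conv_lhs => rw [h]
    rw [map_sum, Fin.sum_univ_succ]
    simp only [map_smul, smul_eq_mul, mul_comm]
  refine ⟨(f (Pi.single 0 1), fun i => f (Pi.single i.succ 1)), ?_, ?_⟩
  · intro h0
    apply hf
    have h1 : f (Pi.single 0 1) = 0 := congrArg Prod.fst h0
    have h2 : (fun i : Fin r => f (Pi.single i.succ 1)) = 0 := congrArg Prod.snd h0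
    refine LinearMap.ext fun x => ?_
    rw [key x, h1]
    simp only [zero_mul, zero_add, LinearMap.zero_apply]
    refine Finset.sum_eq_zero fun i _ => ?_
    have := congrFun h2 i
    simp only [Pi.zero_apply] at this
    rw [this, zero_mul]
  · intro x hx
    have h3 := hfW hx
    rw [LinearMap.mem_ker, key x] at h3
    exact h3

/-- the matrix of the form `P - ∑ c i X i` and the coordinates `X i` -/
def mA {r : ℕ} (c : Fin r → ℚ) : Matrix (Fin (r + 1)) (Fin (r + 1)) ℚ :=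
  Matrix.of (Fin.cons (Fin.cons 1 (fun i => - c i)) (fun i => Pi.single i.succ 1))

theorem mA_zero {r : ℕ} (c : Fin r → ℚ) (P : ℚ) (X : Fin r → ℚ) :
    (mA c).mulVec (Fin.cons P X) 0 = P - ∑ i, c i * X i := by
  simp [mA, Matrix.mulVec, dotProduct, Fin.sum_univ_succ, sub_eq_add_neg]

theorem mA_succ {r : ℕ} (c : Fin r → ℚ) (P : ℚ) (X : Fin r → ℚ) (i : Fin r) :
    (mA c).mulVec (Fin.cons P X) i.succ = X i := by
  simp [mA, Matrix.mulVec, dotProduct, Pi.single_apply]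

theorem mA_det {r : ℕ} (c : Fin r → ℚ) : (mA c).det = 1 := by
  have h : (mA c).BlockTriangular id := by
    intro i j hij
    simp only [id] at hij
    refine Fin.cases ?_ (fun i' => ?_) i (motive := fun i => j < i → mA c i j = 0) hij
    · intro h; exact absurd h (Fin.not_lt_zero _)
    · intro h
      simp only [mA, Matrix.of_apply, Fin.cons_succ]
      rw [Pi.single_apply, if_neg]
      exact fun h' => (ne_of_lt h) h'
  rw [Matrix.det_of_isUpperTriangular h, Fin.prod_univ_succ]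
  simp [mA]

theorem subQ (hS : SubY) : SubQ := by
  classical
  intro r c H δ hδ
  obtain ⟨T, hT⟩ := exists_T
  let A : SP ℚ T → Matrix (Fin (r + 1)) (Fin (r + 1)) ℚ := fun v =>
    match v with
    | Sum.inl _ => mA c
    | Sum.inr _ => 1
  have hA : ∀ v, (A v).det ≠ 0 := by
    intro v
    rcases v with v | w
    · show (mA c).det ≠ 0
      rw [mA_det]; norm_num
    · show (1 : Matrix (Fin (r + 1)) (Fin (r + 1)) ℚ).det ≠ 0
      rw [Matrix.det_one]; norm_num
  have hl2 : 0 < Real.log 2 := Real.log_pos (by norm_num)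
  let B : ℝ := δ + H * ∑ v : SP ℚ T,
    (|Real.log (nS v (2 : ℚ))| + |Real.log (nS v (3 : ℚ))|) / Real.log 2
  obtain ⟨Q0, F, hQ0, hF, hmain⟩ := hS ℚ T (r + 1) (by omega) A hA B δ hδ
  choose! u hu using fun (W : Submodule ℚ (Fin (r + 1) → ℚ)) (hW : W ≠ ⊤) => exists_form W hW
  obtain ⟨N1, hN1⟩ : ∃ N1 : ℕ, Q0 ≤ 2 ^ N1 := by
    obtain ⟨n, hn⟩ := pow_unbounded_of_one_lt Q0 (by norm_num : (1:ℝ) < 2)
    exact ⟨n, hn.le⟩
  refine ⟨max N1 1, F.image u, ?_, ?_⟩
  · intro w hw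
    obtain ⟨W, hW, rfl⟩ := Finset.mem_image.1 hw
    exact (hu W (hF W hW)).1
  intro N hN a b P hab hP
  have hNN1 : N1 ≤ N := (le_max_left _ _).trans hN
  have hN1' : 1 ≤ N := (le_max_right _ _).trans hN
  have hNpos : (0:ℝ) < N := by exact_mod_cast hN1'
  let X : Fin r → ℚ := fun i => 2 ^ a i * 3 ^ b i
  let x : Fin (r + 1) → ℚ := Fin.cons (P : ℚ) X
  have hx0 : x 0 = P := rfl
  have hxs : ∀ i : Fin r, x i.succ = 2 ^ a i * 3 ^ b i := fun i => rfl
  let y : SP ℚ T → Fin (r + 1) → ℝ := fun v => Fin.cons (match v with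
    | Sum.inl _ => -δ
    | Sum.inr _ => 0) (fun i => Real.log (nS v (X i)) / (N * Real.log 2))
  have hQ : Q0 ≤ (2:ℝ) ^ N := hN1.trans (pow_le_pow_right₀ (by norm_num) hNN1)
  have hxS : SIntV T x := by
    intro i
    refine Fin.cases ?_ (fun j => ?_) i
    · intro w _
      rw [hx0]
      exact w_int_le w P
    · rw [hxs j]
      exact unit_SInt hT _ _
  have hB0 : 0 ≤ (H : ℝ) * ∑ v : SP ℚ T,
      (|Real.log (nS v (2 : ℚ))| + |Real.log (nS v (3 : ℚ))|) / Real.log 2 := by positivity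
  have hyB : ∀ v i, |y v i| ≤ B := by
    intro v i
    refine Fin.cases ?_ (fun j => ?_) i
    · rcases v with v | w
      · show |-δ| ≤ B
        rw [abs_neg, abs_of_pos hδ]
        show δ ≤ δ + _
        linarith
      · show |(0:ℝ)| ≤ B
        rw [abs_zero]
        show 0 ≤ δ + _
        linarith
    · show |Real.log (nS v (2 ^ a j * 3 ^ b j)) / (N * Real.log 2)| ≤ B
      rw [unit_log, abs_div, abs_of_pos (mul_pos hNpos hl2), div_le_iff₀ (mul_pos hNpos hl2)]
      have h1 : |(a j : ℝ)| ≤ H * N := by exact_mod_cast (hab j).1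
      have h2 : |(b j : ℝ)| ≤ H * N := by exact_mod_cast (hab j).2
      have h3 : |(a j : ℝ) * Real.log (nS v (2:ℚ)) + b j * Real.log (nS v (3:ℚ))| ≤
          H * N * (|Real.log (nS v (2 : ℚ))| + |Real.log (nS v (3 : ℚ))|) := by
        refine (abs_add_le _ _).trans ?_
        rw [abs_mul, abs_mul, mul_add]
        gcongr
      refine h3.trans ?_
      have h4 : (|Real.log (nS v (2 : ℚ))| + |Real.log (nS v (3 : ℚ))|) / Real.log 2 ≤
          ∑ v : SP ℚ T, (|Real.log (nS v (2 : ℚ))| + |Real.log (nS v (3 : ℚ))|) / Real.log 2 :=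
        Finset.single_le_sum (f := fun v : SP ℚ T =>
          (|Real.log (nS v (2 : ℚ))| + |Real.log (nS v (3 : ℚ))|) / Real.log 2)
          (fun v _ => by positivity) (Finset.mem_univ v)
      have h5 : H * N * (|Real.log (nS v (2 : ℚ))| + |Real.log (nS v (3 : ℚ))|) =
          H * ((|Real.log (nS v (2 : ℚ))| + |Real.log (nS v (3 : ℚ))|) / Real.log 2) *
            (N * Real.log 2) := by
        field_simp
      rw [h5]
      refine mul_le_mul_of_nonneg_right ?_ (by positivity)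
      show _ ≤ δ + _
      have h6 : (H:ℝ) * ((|Real.log (nS v (2 : ℚ))| + |Real.log (nS v (3 : ℚ))|) / Real.log 2) ≤
          H * ∑ v : SP ℚ T, (|Real.log (nS v (2 : ℚ))| + |Real.log (nS v (3 : ℚ))|) / Real.log 2 :=
        mul_le_mul_of_nonneg_left h4 (by positivity)
      linarith
  have hQy : ∀ t : ℝ, ((2:ℝ) ^ N) ^ t = Real.exp (N * Real.log 2 * t) := by
    intro t
    rw [← Real.rpow_natCast, ← Real.rpow_mul (by norm_num), Real.rpow_def_of_pos (by norm_num)]
    ring_nf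
  have hbox : ∀ v i, nS v ((A v).mulVec x i) ≤ ((2:ℝ) ^ N) ^ y v i := by
    intro v i
    refine Fin.cases ?_ (fun j => ?_) i
    · rcases v with v | w
      · show nS (Sum.inl v) ((mA c).mulVec (Fin.cons (P:ℚ) X) 0) ≤ ((2:ℝ) ^ N) ^ (-δ)
        rw [mA_zero, nS_inl]
        have hm : v.mult = 1 := by
          have : v.IsReal := by
            have h1 : v = Rat.infinitePlace := Subsingleton.elim _ _
            rw [h1]
            exact Rat.isReal_infinitePlace
          exact InfinitePlace.mult_isReal ⟨v, this⟩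
        rw [hm, pow_one, Rat.infinitePlace_apply]
        have h7 : ((|((P:ℚ) - ∑ i, c i * X i)| : ℚ) : ℝ) =
            |(P : ℝ) - ∑ i, (c i : ℝ) * (2 ^ a i * 3 ^ b i)| := by
          simp only [X]
          push_cast
          rfl
        rw [h7]
        refine hP.trans (le_of_eq ?_)
        rw [hQy, Real.rpow_def_of_pos (by norm_num)]
        ring_nf
      · show nS (Sum.inr w) ((1 : Matrix (Fin (r + 1)) (Fin (r + 1)) ℚ).mulVec x 0) ≤
          ((2:ℝ) ^ N) ^ (0:ℝ)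
        rw [Matrix.one_mulVec, Real.rpow_zero, hx0]
        exact w_int_le w.1 P
    · have h8 : (A v).mulVec x j.succ = X j := by
        rcases v with v | w
        · exact mA_succ c P X j
        · show (1 : Matrix (Fin (r + 1)) (Fin (r + 1)) ℚ).mulVec x j.succ = X j
          rw [Matrix.one_mulVec]
          rfl
      rw [h8, hQy]
      show nS v (X j) ≤ Real.exp (N * Real.log 2 * (Real.log (nS v (X j)) / (N * Real.log 2)))
      rw [mul_div_cancel₀ _ (mul_pos hNpos hl2).ne', Real.exp_log (nS_pos v (unit_ne _ _))]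
  have hsum : ∑ v, ∑ i, y v i ≤ -δ := by
    have h9 : ∀ v : SP ℚ T, ∑ i, y v i = (match v with
        | Sum.inl _ => -δ
        | Sum.inr _ => 0) + ∑ i, Real.log (nS v (X i)) / (N * Real.log 2) := by
      intro v
      rw [Fin.sum_univ_succ]
      rfl
    simp only [h9]
    have h10 : ∑ v : SP ℚ T, ∑ i : Fin r, Real.log (nS v (X i)) / (N * Real.log 2) = 0 := by
      rw [Finset.sum_comm]
      refine Finset.sum_eq_zero fun i _ => ?_
      rw [← Finset.sum_div, unit_logsum hT, zero_div]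
    rw [Finset.sum_add_distrib, h10, add_zero, Fintype.sum_sum_type]
    simp
  obtain ⟨W, hWF, hxW⟩ := hmain (2 ^ N) hQ x hxS y hyB hbox hsum
  refine ⟨u W, Finset.mem_image_of_mem u hWF, ?_⟩
  have h11 := (hu W (hF W hWF)).2 x hxW
  rw [hx0] at h11
  exact h11

end Pool.Agent.Helper17.Rg
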