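import Mathlib
import Pool.Agent.Helper66.Rig.Defs
import Pool.Agent.Helper92.Ru.GoalsS

/-!
# Windows for `2 ^ k + 3 ^ k` (MP_70814c_an): definitions
-/

set_option autoImplicit false

namespace Pool.Agent.Helper17.Rg

/-- the base `2` (for `false`) or `3` (for `true`) -/
def gb (b : Bool) : ℕ := if b then 3 else 2

/-- distance to the nearest integer -/
noncomputable def di (x : ℝ) : ℝ := |x - round x|

/-- the time `k` is bad for `x`: `2 ^ k x` or `3 ^ k x` is at distance `≥ 1 / 8` from `ℤ` -/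
def Bad (x : ℝ) (k : ℕ) : Prop := 1 / 8 ≤ di (2 ^ k * x) ∨ 1 / 8 ≤ di (3 ^ k * x)

open Classical in
/-- the number of bad times `k` with `N ≤ k ≤ L` -/
noncomputable def nb (x : ℝ) (N L : ℕ) : ℕ := ((Finset.Icc N L).filter (fun k => Bad x k)).card

/-- the part in base `2` of the sum of the `c t / g t ^ l t` -/
noncomputable def pt2 {r : ℕ} (c : Fin r → ℝ) (g : Fin r → Bool) (l : Fin r → ℕ) : ℝ :=
  ∑ t, if g t then 0 else c t / 2 ^ l t

/-- the part in base `3` of the sum of the `c t / g t ^ l t` -/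
noncomputable def pt3 {r : ℕ} (c : Fin r → ℝ) (g : Fin r → Bool) (l : Fin r → ℕ) : ℝ :=
  ∑ t, if g t then c t / 3 ^ l t else 0

end Pool.Agent.Helper17.Rg
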