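import Pool.Agent.Helper17.Rg.Defs

/-!
# Windows for `2 ^ k + 3 ^ k` (MP_70814c_an): goals

Main theorem: for `C > log 6 / log 2` and every `M` there is `N0` such that for all `N ≥ N0` and ALL
real `x`: `∑_{N ≤ k ≤ C N} (1 - cos (2 π n_k x)) ≥ M (1 - cos (2 π x))`, `n_k = 2 ^ k + 3 ^ k`.
All goals below are independent (each may assume the earlier ones, as indicated).
-/

set_option autoImplicit false

open NumberField Pool.Agent.Helper92.Ru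

namespace Pool.Agent.Helper17.Rg

/-- MESH: the Subspace theorem `SSTint` with variable exponents.
Goal: `theorem subY (h : SSTint) : SubY`.
Proof. Let `m` be the number of pairs `(v, i)`, `η := δ / (2 (m + 1)) > 0`, `H := ⌈|B| / η⌉ + 1`.
For every integer valued function `f : SP k T → Fin N → ℤ` with `|f v i| ≤ H` for all `v, i`
(finitely many: `Fintype.piFinset`, or `Set.Finite.pi`) and `∑ η * f v i < 0`, `SSTint` with
`e v i := η * f v i` gives `Q0_f` and `F_f`; for the other `f` take `Q0_f = 1`, `F_f = ∅`. Take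
`Q0` larger than `2` and all the `Q0_f` (a finite sum), `F` the union of the `F_f`. Given `Q, x, y`
put `f v i := ⌈y v i / η⌉`; then `y v i ≤ η f v i < y v i + η`, so `|f v i| ≤ H`, the sum of the
`η f v i` is at most `-δ + m η < 0`, and `nS v _ ≤ Q ^ y v i ≤ Q ^ (η f v i)` because `1 ≤ Q`
(`Real.rpow_le_rpow_of_exponent_le`); this is `InBox A (wQ Q e) x`. -/
def SubY : Prop :=
  ∀ (k : Type) [Field k] [NumberField k] (T : Finset (FinitePlace k)) (N : ℕ), 1 ≤ N →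
    ∀ (A : SP k T → Matrix (Fin N) (Fin N) k), (∀ v, (A v).det ≠ 0) →
    ∀ B δ : ℝ, 0 < δ →
    ∃ (Q0 : ℝ) (F : Finset (Submodule k (Fin N → k))), 1 < Q0 ∧ (∀ W ∈ F, W ≠ ⊤) ∧
      ∀ Q : ℝ, Q0 ≤ Q → ∀ x : Fin N → k, SIntV T x → ∀ y : SP k T → Fin N → ℝ,
        (∀ v i, |y v i| ≤ B) → (∀ v i, nS v ((A v).mulVec x i) ≤ Q ^ y v i) →
        ∑ v, ∑ i, y v i ≤ -δ → ∃ W ∈ F, x ∈ W

/-- SUBQ: the Subspace theorem for one integer `P` and `S`-units `2 ^ a 3 ^ b`.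
Goal: `theorem subQ (h : SubY) : SubQ`.
Proof. PLACES: apply `FinitePlace.hasFiniteMulSupport` to `(6 : ℚ) ≠ 0`: the set of finite places
`w` of `ℚ` with `w 6 ≠ 1` is finite; let `T` be this finite set. For `w ∉ T`: `w 2 * w 3 = 1` and
`w 2 ≤ 1`, `w 3 ≤ 1` (`w ≤ 1` on integers: `SInt.of_int` or `FinitePlace.norm_le_one`), so
`w 2 = w 3 = 1`, hence `w (2 ^ a * 3 ^ b) = 1` for `a b : ℤ`. So `X = 2 ^ a * 3 ^ b` is an
`S`-integer (`SInt T X`) and by the product formula (`prod_abs_eq_one`, as in `one_le_prod_nS` in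
`DefsS.lean`; or apply `one_le_prod_nS` to `X` and `X⁻¹`) `∏ v, nS v X = 1`, that is
`∑ v, Real.log (nS v X) = 0`. An integer `P` has `w P ≤ 1` for all `w`. The only infinite place is
`|.|` with multiplicity one (`Rat.infinitePlace_apply`).
MAIN. Use `SubY` for `k = ℚ`, this `T`, `N := r + 1`, `A (Sum.inl _) :=` the identity matrix with the
first row replaced by `(1, -c)` (upper triangular with determinant `1`), `A (Sum.inr w) := 1`,
`x := Fin.cons P (fun i => 2 ^ a i * 3 ^ b i)`, `Q := 2 ^ N` (real power, `N ≥ 1`), the exponents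
`y v i.succ := Real.log (nS v (2 ^ a i * 3 ^ b i)) / (N * Real.log 2)`, `y (Sum.inl _) 0 := -δ`,
`y (Sum.inr w) 0 := 0`. Then `nS v (X i) = Q ^ y v i.succ`, the first form at infinity is
`|P - ∑ c i X i| ≤ 2 ^ (-δ N) = Q ^ (-δ)`, `w P ≤ 1 = Q ^ 0`, and the sum of all the `y` is `-δ`.
Bound: `|log (nS v (2 ^ a 3 ^ b))| ≤ |a| |log (nS v 2)| + |b| |log (nS v 3)| ≤ H N (...)`, so
`B := δ + H * ∑ v, (|log (nS v 2)| + |log (nS v 3)|) / log 2` works. `N0` with `Q0 ≤ 2 ^ N0`,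
`1 ≤ N0`. For each `W ∈ F` choose a nonzero linear form on `Fin (r+1) → ℚ` vanishing on `W`
(`Submodule.exists_le_ker_of_lt_top`) and take its coefficients `(f e_0, (f e_(i+1))_i)`. -/
def SubQ : Prop :=
  ∀ (r : ℕ) (c : Fin r → ℚ) (H : ℕ) (δ : ℝ), 0 < δ →
    ∃ (N0 : ℕ) (F : Finset (ℚ × (Fin r → ℚ))), (∀ u ∈ F, u ≠ 0) ∧
      ∀ N : ℕ, N0 ≤ N → ∀ (a b : Fin r → ℤ) (P : ℤ),
        (∀ i, |a i| ≤ H * N ∧ |b i| ≤ H * N) →
        |(P : ℝ) - ∑ i, (c i : ℝ) * (2 ^ a i * 3 ^ b i)| ≤ (2 : ℝ) ^ (-δ * N) →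
        ∃ u ∈ F, u.1 * P + ∑ i, u.2 i * (2 ^ a i * 3 ^ b i) = 0

/-- E1: an integer over `6 ^ N` very close to a sum of few `c t / 2 ^ l t`, `c t / 3 ^ l t` is
EQUAL to a sum with the same exponents and coefficients from a finite set.
Goal: `theorem exact (h : SubQ) : Exact`.
Proof. Induction on `r`, for all `c, g, H, K` (with `C` fixed). Let `δ := (C - log 6 / log 2) / 2`.
Apply `SubQ` to `r, c, H + 1, δ`: the numbers `X t := 6 ^ N / gb (g t) ^ l t` are `2 ^ a 3 ^ b`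
with `a = N` or `N - l t`, `b = N` or `N - l t`, so `|a|, |b| ≤ (H + 1) N`; multiplying the
hypothesis by `6 ^ N = 2 ^ (N log 6 / log 2)` gives
`|P - ∑ c t X t| ≤ |K| 2 ^ (-2 δ N) ≤ 2 ^ (-δ N)` for large `N`. So there is a relation `u ∈ F`,
`u ≠ 0`, `u.1 * P + ∑ u.2 t * X t = 0`. If `u.1 ≠ 0` then
`P / 6 ^ N = ∑ (- u.2 t / u.1) / gb (g t) ^ l t` and we put `- u.2 / u.1` in `U`. If `u.1 = 0` there is
`t0` (chosen from `u` alone) with `u.2 t0 ≠ 0`, so `r = r' + 1`, and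
`1 / gb (g t0) ^ l t0 = - ∑_{t ≠ t0} (u.2 t / u.2 t0) / gb (g t) ^ l t`. So
`∑ c t / .. = ∑_{t ≠ t0} (c t - c t0 * u.2 t / u.2 t0) / ..` and the induction hypothesis for
`r'`, `fun j => c (t0.succAbove j) - ..`, `g ∘ t0.succAbove`, gives `N0` and `U'`; extend the
elements of `U'` by zero at `t0` (`Fin.insertNth t0 0`). `U` is the finite union over `u ∈ F`;
`N0` the maximum. (For `r = 0` only `u.1 ≠ 0` is possible.) Useful: `Fin.sum_univ_succAbove`. -/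
def Exact : Prop :=
  ∀ (r : ℕ) (c : Fin r → ℚ) (g : Fin r → Bool) (H : ℕ) (C K : ℝ),
    Real.log 6 / Real.log 2 < C →
    ∃ (N0 : ℕ) (U : Finset (Fin r → ℚ)), ∀ N : ℕ, N0 ≤ N → ∀ (l : Fin r → ℕ) (P : ℤ),
      (∀ t, l t ≤ H * N) →
      |(P : ℝ) / 6 ^ N - ∑ t, (c t : ℝ) / (gb (g t) : ℝ) ^ l t| ≤ K * (2 : ℝ) ^ (-C * N) →
      ∃ u ∈ U, (P : ℚ) / 6 ^ N = ∑ t, u t / (gb (g t) : ℚ) ^ l t

/-- ZINT: `ℤ[1/2] ∩ ℤ[1/3] = ℤ`, in the form needed.
Goal: `theorem zInt : ZInt`. Proof: the denominator of `z` divides `2 ^ a` and `3 ^ b`. -/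
def ZInt : Prop :=
  ∀ (z : ℚ) (a b : ℕ) (m n : ℤ), z * 2 ^ a = m → z * 3 ^ b = n → ∃ k : ℤ, z = k

/-- VAN: an exact relation among `1 / 2 ^ l t`, `1 / 3 ^ l t` with all `l t` large splits.
Goal: `theorem van (h : ZInt) : Van`.
Proof. Let `D > 0` be a common denominator of the `u t` (product of the denominators). Put
`z := D * ∑_{g t = false} u t / 2 ^ l t = - D * ∑_{g t = true} u t / 3 ^ l t`. With `L := ∑ l t`,
`z * 2 ^ L` and `z * 3 ^ L` are integers, so `z` is an integer by `ZInt`, and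
`|z| ≤ D * ∑ |u t| / 2 ^ N < 1` if `N ≥ N1`. So `z = 0`. -/
def Van : Prop :=
  ∀ (r : ℕ) (u : Fin r → ℚ) (g : Fin r → Bool), ∃ N1 : ℕ, ∀ N : ℕ, N1 ≤ N → ∀ l : Fin r → ℕ,
    (∀ t, N ≤ l t) → ∑ t, u t / (gb (g t) : ℚ) ^ l t = 0 →
    (∑ t, if g t then 0 else u t / (2 : ℚ) ^ l t) = 0 ∧
    (∑ t, if g t then u t / (3 : ℚ) ^ l t else 0) = 0

/-- E2: if the whole sum is `O (2 ^ (-C1 N))` then its part in base `2` is `O (2 ^ (-C2 N))` for
every `C2 < C1`.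
Goal: `theorem twoPart (h : SubQ) (hv : Van) : TwoPart`.
Proof. Induction on `r`, for all `c, g, H, C1, C2, K`. `r = 0`: the sum is `0`. Step `r + 1`: let
`C3 := (C1 + C2) / 2`. CASE A: some term has `|c t0| / gb (g t0) ^ l t0 ≤ 2 ^ (-C3 N)`: the sum
without this term is at most `(|K| + 1) 2 ^ (-C3 N)`, and the induction hypothesis (for
`c ∘ t0.succAbove`, `g ∘ t0.succAbove`, `C3`, `C2`, `|K| + 1`) bounds its base `2` part by
`K'' 2 ^ (-C2 N)`; adding the term back costs at most `2 ^ (-C3 N) ≤ 2 ^ (-C2 N)`. CASE B: all terms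
are larger than `2 ^ (-C3 N)`; in particular `c 0 ≠ 0`. Put `δ := (C1 - C3) / 2`. Divide the sum by
the term of `t = 0`: with `X j := gb (g 0) ^ l 0 / gb (g j.succ) ^ l j.succ = 2 ^ a 3 ^ b`,
`|a|, |b| ≤ 2 H N`, one has `|1 - ∑ (- c j.succ / c 0) X j| ≤ |K| 2 ^ (-(C1 - C3) N) ≤ 2 ^ (-δ N)` for
large `N`, so `SubQ` (for `r`, `- c j.succ / c 0`, `2 H`, `δ`, `P = 1`) gives `u ≠ 0` in a finite
set with `u.1 + ∑ u.2 j X j = 0`; divide by `gb (g 0) ^ l 0`: `v := Fin.cons u.1 u.2 ≠ 0` satisfies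
`∑ t, v t / gb (g t) ^ l t = 0`. By `Van` both parts of this relation vanish if `N ≥ N1 (v)`. Choose
`t0` (depending on `v` only) with `v t0 ≠ 0`, let `c' t := c t - (c t0 / v t0) * v t` if
`g t = g t0` and `c' t := c t` otherwise. Then `c' t0 = 0`, and the base `2` part and the base `3`
part of the sum for `c'` are those for `c`. The induction hypothesis for `c' ∘ t0.succAbove`,
`g ∘ t0.succAbove`, `C1`, `C2`, `K` finishes. Finitely many `t0` and `v`: take maxima of the `N0`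
and sums of the `|K'|`. Useful: `Fin.sum_univ_succAbove`, `Fin.sum_univ_succ`. -/
def TwoPart : Prop :=
  ∀ (r : ℕ) (c : Fin r → ℚ) (g : Fin r → Bool) (H : ℕ) (C1 C2 K : ℝ), C2 < C1 →
    ∃ (N0 : ℕ) (K' : ℝ), ∀ N : ℕ, N0 ≤ N → ∀ l : Fin r → ℕ, (∀ t, N ≤ l t ∧ l t ≤ H * N) →
      |∑ t, (c t : ℝ) / (gb (g t) : ℝ) ^ l t| ≤ K * (2 : ℝ) ^ (-C1 * N) →
      |pt2 (fun t => (c t : ℝ)) g l| ≤ K' * (2 : ℝ) ^ (-C2 * N)

/-- APX: if `x` has few nonzero digits in both bases in the window `[N, C N]`, then `x` is very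
close to a rational number with bounded denominator.
Goal: `theorem apx (h1 : Exact) (h2 : TwoPart) (h3 : ZInt) : Apx`.
Proof. Apply `Exact` to `c' t := c t` if `g t = true`, `c' t := - c t` if `g t = false`,
`P := A * 3 ^ N - B * 2 ^ N`, `2 |K|` in place of `K`: indeed `P / 6 ^ N = A / 2 ^ N - B / 3 ^ N`, and
the difference of the two hypotheses says `|P / 6 ^ N + pt2 c - pt3 c| ≤ 2 K 2 ^ (-C N)`. So there
is `u` in the finite set `U` with `A / 2 ^ N - B / 3 ^ N = pt2 u + pt3 u` exactly. Let `D > 0` be a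
common denominator of all the numbers `u t`, `u ∈ U`. Put
`y := A / 2 ^ N - pt2 u = B / 3 ^ N + pt3 u`. With `L := N + ∑ l t`: `D y 2 ^ L` and `D y 3 ^ L` are
integers, so `D y = n` is an integer by `ZInt`. Now `x - y = (x - A / 2 ^ N - pt2 c) + pt2 (c + u)`
and `x - y = (x - B / 3 ^ N - pt3 c) + pt3 (c - u)`. The difference gives
`|pt2 (c + u) + pt3 (u - c)| ≤ 2 |K| 2 ^ (-C N)`, so `TwoPart` for the coefficients `c t + u t` if
`g t = false`, `u t - c t` if `g t = true` (finitely many `u`) gives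
`|pt2 (c + u)| ≤ K1 2 ^ (-C2 N)`, hence `|x - y| ≤ (|K| + K1) 2 ^ (-C2 N)`. -/
def Apx : Prop :=
  ∀ (r : ℕ) (c : Fin r → ℤ) (g : Fin r → Bool) (H : ℕ) (C C2 K : ℝ),
    Real.log 6 / Real.log 2 < C → C2 < C →
    ∃ (N0 D : ℕ) (K' : ℝ), 0 < D ∧ ∀ N : ℕ, N0 ≤ N → ∀ (x : ℝ) (A B : ℤ) (l : Fin r → ℕ),
      (∀ t, N ≤ l t ∧ l t ≤ H * N) →
      |x - A / 2 ^ N - pt2 (fun t => (c t : ℝ)) g l| ≤ K * (2 : ℝ) ^ (-C * N) →
      |x - B / 3 ^ N - pt3 (fun t => (c t : ℝ)) g l| ≤ K * (2 : ℝ) ^ (-C * N) →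
      ∃ n : ℤ, |x - n / D| ≤ K' * (2 : ℝ) ^ (-C2 * N)

/-- PAD: a sum over a small finite set as a sum over `Fin s` with coefficients `0, 1`.
Goal: `theorem pad : Pad`. Proof: induction on `s` (remove one element, or pad by `0`), or
`S.equivFin`. -/
def Pad : Prop :=
  ∀ (s : ℕ) (S : Finset ℕ) (N L : ℕ), S.card ≤ s → N ≤ L → (∀ k ∈ S, N ≤ k ∧ k ≤ L) →
    ∃ (l : Fin s → ℕ) (a : Fin s → ℤ), (∀ t, N ≤ l t ∧ l t ≤ L) ∧ (∀ t, a t = 0 ∨ a t = 1) ∧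
      ∀ F : ℕ → ℝ, ∑ k ∈ S, F k = ∑ t, (a t : ℝ) * F (l t)

/-- DIG: the digit expansions in a window with few bad times.
Goal: `theorem dig (h : Pad) : Dig`.
Proof. Let `a k := round (2 ^ k x)`, `d k := a (k + 1) - 2 a k`, `b k := round (3 ^ k x)`,
`e k := b (k + 1) - 3 b k`. Since `d k = (a (k+1) - 2 ^ (k+1) x) - 2 (a k - 2 ^ k x)` one has
`|d k| ≤ 1/2 + 2/2 < 2`, so `|d k| ≤ 1`; similarly `|e k| ≤ 1/2 + 3/2 = 2`. If neither `k` nor
`k + 1` is bad then `|d k| < 1/8 + 2/8`, `|e k| < 1/8 + 3/8`, so `d k = e k = 0`. Let `S` be the set of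
the `k + 1` with `N ≤ k < L` and (`d k ≠ 0` or `e k ≠ 0`): it has at most `2 m` elements (its
elements are `k` or `k + 1` bad in `[N, L]`: `S` is contained in the union of the bad set and its
image under successor). Telescoping (`Nat.le_induction` on `L`):
`a L / 2 ^ L = a N / 2 ^ N + ∑_{N ≤ k < L} d k / 2 ^ (k+1)` and the sum is `∑_{j ∈ S} d (j-1) / 2 ^ j`
(the other terms vanish); `|x - a L / 2 ^ L| ≤ 2 ^ (-L) / 2`. Same for `3`. Now `Pad` for `S`,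
`s := 2 m`, gives `l0, a0`; the index set is `Fin (2 m + 2 m)`: `l := Fin.append l0 l0`,
`g := Fin.append (fun _ => false) (fun _ => true)`,
`c := Fin.append (fun t => a0 t * d (l0 t - 1)) (fun t => a0 t * e (l0 t - 1))`
(`Fin.sum_univ_add`, `Fin.append_left`, `Fin.append_right`). (If `l0 t = 0` the value `d (0 - 1) = d 0`
is harmless: still `|d 0| ≤ 2`; positions in `S` are `≥ 1`.) -/
def Dig : Prop :=
  ∀ (m : ℕ) (x : ℝ) (N L : ℕ), N ≤ L → nb x N L ≤ m →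
    ∃ (c : Fin (2 * m + 2 * m) → ℤ) (g : Fin (2 * m + 2 * m) → Bool)
      (l : Fin (2 * m + 2 * m) → ℕ), (∀ t, |c t| ≤ 2) ∧ (∀ t, N ≤ l t ∧ l t ≤ L) ∧
      |x - round (2 ^ N * x) / 2 ^ N - pt2 (fun t => (c t : ℝ)) g l| ≤ 1 / 2 ^ L ∧
      |x - round (3 ^ N * x) / 3 ^ N - pt3 (fun t => (c t : ℝ)) g l| ≤ 1 / 2 ^ L

/-- BRAT: a rational number which is not an integer has a bad time in every block of bounded
length.
Goal: `theorem badRat : BadRat`.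
Proof. `di z ≥ 1 / D` for `z = p / D` not an integer. If `|z| < 1/4` modulo 1, i.e. `di z < 1/4`, then
`di (2 z) = 2 di z`; if `di z < 1/6` then `di (3 z) = 3 di z` and `di (2 z) = 2 di z`. Let `h` be with
`2 ^ (h - 1) > D`, `h ≥ 1`. If all `2 ^ k (n / D)` are non-integers then among `k0 ≤ k < k0 + h` one has
`di (2 ^ k (n / D)) ≥ 1/6`: otherwise `di (2 ^ (k0 + j) y) = 2 ^ j di (2 ^ k0 y) ≥ 2 ^ j / D` for
`j < h`, so `2 ^ (h-1) / D < 1/6`, contradiction. Same for `3` if all `3 ^ k (n / D)` are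
non-integers. One of the two cases holds: if `2 ^ k (n / D)` and `3 ^ k' (n / D)` are both integers
then `n / D` is an integer since `2 ^ k` and `3 ^ k'` are coprime. -/
def BadRat : Prop :=
  ∀ D : ℕ, 0 < D → ∃ h : ℕ, 0 < h ∧ ∀ n : ℤ, (¬ ∃ z : ℤ, (n : ℝ) / D = z) → ∀ k0 : ℕ,
    ∃ k, k0 ≤ k ∧ k < k0 + h ∧ (1 / 6 ≤ di (2 ^ k * (n / D)) ∨ 1 / 6 ≤ di (3 ^ k * (n / D)))

/-- PTB: the number of bad times in `[N, C N - 1]` tends to infinity, uniformly in `x` with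
distance `≥ κ` from `ℤ`.
Goal: `theorem ptBad (h1 : Apx) (h2 : Dig) (h3 : BadRat) : PtBad`.
Proof. Let `L := ⌊C N⌋₊ - 1 ≥ C N - 2` (large `N`), so `1 / 2 ^ L ≤ 4 * 2 ^ (-C N)`. Suppose
`nb x N L < m`. `Dig` gives `c, g, l` with `|c t| ≤ 2`; there are finitely many pairs `(c, g)`, so
apply `Apx` to each of them with `H := ⌈C⌉₊`, `K := 4`, `C2 := (C + log 6 / log 2) / 2` and take
the maximum of the `N0` (choose functions of the pair `(c, g)`, `c` in the finite set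
`Fintype.piFinset (fun _ => Finset.Icc (-2) 2)`): there are `D > 0`, `K'`, `n` with
`|x - n / D| ≤ K' 2 ^ (-C2 N)` (`D`, `K'` from a finite list). If `n / D` were an integer then
`di x ≤ |x - n / D| < κ` for large `N` (`di x ≤ |x - z|` for integers `z`: `round_le`), so it is not
an integer. Let `h` be the number of `BadRat` for `D`. Since `2 ^ C2 > 6 > 3`, for large `N` and all
`k < N + m h`: `|2 ^ k x - 2 ^ k n / D| ≤ 1/24` and `|3 ^ k x - 3 ^ k n / D| ≤ 3 ^ (N + m h) K' 2 ^ (-C2 N)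
≤ 1/24`, so `di (2 ^ k x) ≥ 1/8` if `di (2 ^ k n / D) ≥ 1/6` (`|di a - di b| ≤ |a - b|`), same for
`3`. Each of the `m` blocks `[N + j h, N + (j+1) h)`, `j < m`, contains a bad time, all in
`[N, L]` since `N + m h ≤ L` for large `N` (`C > 1`). So `nb x N L ≥ m`. -/
def PtBad : Prop :=
  ∀ (C κ : ℝ) (m : ℕ), Real.log 6 / Real.log 2 < C → 0 < κ → ∃ N0 : ℕ, ∀ N : ℕ, N0 ≤ N →
    ∀ x : ℝ, κ ≤ di x → m ≤ nb x N (⌊C * N⌋₊ - 1)

/-- ONE: there is a bad time in the window if `x` is not extremely close to an integer.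
Goal: `theorem oneBad (h : Dig) : OneBad`.
Proof. Let `L := ⌊C N⌋₊ - 1`, `6 ^ N * 2 < 2 ^ L` for large `N` (as `C > log 6 / log 2`). If
`nb x N L = 0` then `Dig` with `m = 0` (empty sums) gives `|x - A / 2 ^ N| ≤ 1 / 2 ^ L` and
`|x - B / 3 ^ N| ≤ 1 / 2 ^ L`, `A, B` integers, so `|A 3 ^ N - B 2 ^ N| ≤ 2 * 6 ^ N / 2 ^ L < 1`, so
`A 3 ^ N = B 2 ^ N`, so `2 ^ N` divides `A` and `A / 2 ^ N` is an integer `z` with
`|x - z| ≤ 1 / 2 ^ L < 1 / 6 ^ N`, so `di x < 1 / 6 ^ N`. -/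
def OneBad : Prop :=
  ∀ C : ℝ, Real.log 6 / Real.log 2 < C → ∃ N0 : ℕ, ∀ N : ℕ, N0 ≤ N →
    ∀ x : ℝ, 1 / (6 : ℝ) ^ N ≤ di x → 1 ≤ nb x N (⌊C * N⌋₊ - 1)

/-- COS: every bad time contributes to the sum of the `1 - cos (2 π n_k x)`.
Goal: `theorem cosBad : CosBad`.
Proof. Let `n k := 2 ^ k + 3 ^ k`. `2 ^ k = 3 n k - n (k+1)`, `3 ^ k = n (k+1) - 2 n k`, so
`di (2 ^ k x) ≤ 3 di (n k x) + di (n (k+1) x)`, `di (3 ^ k x) ≤ 2 di (n k x) + di (n (k+1) x)`. So if `k`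
is bad, `max (di (n k x)) (di (n (k+1) x)) ≥ 1 / 32`. And `1 - cos (2 π t) ≥ 8 (di t) ^ 2`
(`Pool.Agent.Helper66.Rig.one_sub_cos_ge` in `Helper66/Rig/Obs2.lean`), so
`(1 - cos (2 π n_k x)) + (1 - cos (2 π n_(k+1) x)) ≥ 8 / 32 ^ 2 = 1 / 128`. Sum over the bad `k` in
`[N, L]`: every index of `[N, L + 1]` is used at most twice, and all terms are `≥ 0`. -/
def CosBad : Prop :=
  ∀ (x : ℝ) (N L : ℕ), (nb x N L : ℝ) / 256 ≤
    ∑ k ∈ Finset.Icc N (L + 1), (1 - Real.cos (2 * Real.pi * ((2 ^ k + 3 ^ k) * x)))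

/-- SUM: the pointwise main theorem.
Goal: `theorem ptSum (h1 : PtBad) (h2 : OneBad) (h3 : CosBad) : PtSum`.
Proof. We may assume `M ≥ 1` (the right factor is `≥ 0`, so a larger `M` is stronger). Always
`1 - cos (2 π x) ≤ 2` and `1 - cos (2 π x) ≤ 2 π ^ 2 (di x) ^ 2 ≤ 20 (di x) ^ 2` (periodicity and
`1 - cos s ≤ s ^ 2 / 2`). Let `κ > 0` with `20 M κ ^ 2 ≤ 1 / 256`. `L := ⌊C N⌋₊ - 1`, so
`L + 1 = ⌊C N⌋₊` for `N ≥ 1`. CASE `di x ≥ κ`: `PtBad` with `m ≥ 512 M` and `CosBad`.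
CASE `1 / 6 ^ N ≤ di x < κ`: `OneBad`: the sum is `≥ 1 / 256 ≥ 20 M κ ^ 2 ≥ M (1 - cos (2 π x))`.
CASE `di x < 1 / 6 ^ N`: the term `k = N` alone: let `z = round x`, `n = 2 ^ N + 3 ^ N`; `n x - n z` has
absolute value `n di x ≤ 2 * 3 ^ N / 6 ^ N ≤ 1/2` (`N ≥ 2`), so `di (n x) = n di x` and
`1 - cos (2 π n x) ≥ 8 n ^ 2 (di x) ^ 2 ≥ 20 M (di x) ^ 2` for large `N`. -/
def PtSum : Prop :=
  ∀ C M : ℝ, Real.log 6 / Real.log 2 < C → ∃ N0 : ℕ, ∀ N : ℕ, N0 ≤ N → ∀ x : ℝ,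
    M * (1 - Real.cos (2 * Real.pi * x)) ≤
      ∑ k ∈ Finset.Icc N ⌊C * N⌋₊, (1 - Real.cos (2 * Real.pi * ((2 ^ k + 3 ^ k) * x)))

/-- MEAS: the main theorem for measures.
Goal: `theorem meas (h : PtSum) : Meas`.
Proof. For `‖z‖ = 1` write `z = exp (2 π i x)` (`x = arg z / (2 π)`); then
`(z ^ n).re = cos (2 π n x)`. So `PtSum` says
`M (1 - z.re) ≤ ∑ (1 - (z ^ n_k).re)` for every `z` on the circle; integrate against `σ`
(all functions bounded and measurable, so integrable; `fc σ n = ∫ z ^ n`,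
`(∫ f).re = ∫ f.re`, `integral_finset_sum`). Compare `Helper66/Rig/Obs2.lean` and `Obs3.lean`
(there for `ContProb`). -/
def Meas : Prop :=
  ∀ C M : ℝ, Real.log 6 / Real.log 2 < C → ∃ N0 : ℕ, ∀ N : ℕ, N0 ≤ N →
    ∀ σ : MeasureTheory.Measure ℂ, MeasureTheory.IsProbabilityMeasure σ →
    (∀ᵐ z ∂σ, ‖z‖ = 1) →
    M * (1 - (Pool.Agent.Helper66.Rig.fc σ 1).re) ≤
      ∑ k ∈ Finset.Icc N ⌊C * N⌋₊, (1 - (Pool.Agent.Helper66.Rig.fc σ (2 ^ k + 3 ^ k)).re)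

end Pool.Agent.Helper17.Rg
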