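import Pool.Agent.Helper17.Rg.SUBQ
import Pool.Agent.Helper54.Ru.M1int
import Pool.Agent.Helper92.Ru.AsmC
import Pool.Agent.Helper31.Rg.MESH
import Pool.Agent.Helper9.Rg.E1
import Pool.Agent.Helper69.Rg.ZINT
import Pool.Agent.Helper49.Rg.VAN
import Pool.Agent.Helper79.Rg.E2
import Pool.Agent.Helper19.Rg.APX
import Pool.Agent.Helper89.Rg.PAD
import Pool.Agent.Helper93.Rg.DIG
import Pool.Agent.Helper82.RG.BRAT
import Pool.Agent.Helper2.Rg.PTB
import Pool.Agent.Helper58.Rg.ONE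
import Pool.Agent.Helper8.Rg.COS
import Pool.Agent.Helper81.Rg.SUM
import Pool.Agent.Helper59.Rg.MEAS

/-!
# Windows for `2 ^ k + 3 ^ k` (MP_70814c_an): assembly
-/

set_option autoImplicit false

namespace Pool.Agent.Helper17.Rg

theorem sst : Pool.Agent.Helper92.Ru.SSTint :=
  Pool.Agent.Helper92.Ru.sstInt' Pool.Agent.Helper54.Ru.m1int Pool.Agent.Helper92.Ru.vanish'

theorem subQ' : SubQ := subQ (Pool.Agent.Helper31.Rg.subY sst)

theorem exact' : Exact := Pool.Agent.Helper9.Rg.gExact subQ'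

theorem van' : Van := Pool.Agent.Helper49.Rg.van Pool.Agent.Helper69.Rg.zInt

theorem twoPart' : TwoPart := Pool.Agent.Helper79.Rg.twoPart subQ' van'

theorem apx' : Apx := Pool.Agent.Helper19.Rg.apx exact' twoPart' Pool.Agent.Helper69.Rg.zInt

theorem dig' : Dig := Pool.Agent.Helper93.Rg.dig Pool.Agent.Helper89.Rg.pad

theorem ptBad' : PtBad := Pool.Agent.Helper2.Rg.ptBad apx' dig' Pool.Agent.Helper82.RG.badRat

theorem ptSum' : PtSum :=
  Pool.Agent.Helper81.Rg.ptSum ptBad' (Pool.Agent.Helper58.Rg.oneBad dig') Pool.Agent.Helper8.Rg.cosBad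

theorem meas' : Meas := Pool.Agent.Helper59.Rg.meas ptSum'

end Pool.Agent.Helper17.Rg
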